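import Pool.Agent.helper93.ADV.SpecU

/-! adv, row BST: boosting by multiplicative weights. -/

set_option autoImplicit false

namespace Pool.Agent.ADV

open Finset Pool.Agent.helper38.Neg Pool.Agent.helper55.NT Pool.Agent.LNB

open Classical in
/-- the factor of the weight -/
noncomputable def BST_fac {n : ℕ} (f : (Fin n → Bool) → Prop) (γ : ℝ) (g : Fn n) (b : Bool) (x : Fin n → Bool) : ℝ :=
  if (xor b (g x) = true ↔ f x) then 1 - γ else 1 + γ

theorem BST_step {n : ℕ} (f : (Fin n → Bool) → Prop) (P : Fn n → Prop) (γ : ℝ) (hγ : 0 < γ)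
    (hD : ∀ D : (Fin n → Bool) → ℝ, IsDist D → ∃ g, P g ∧ γ ≤ adv D f g) (w : (Fin n → Bool) → ℝ) (hw : ∀ x, 0 < w x) :
    ∃ (g : Fn n) (b : Bool), P g ∧ ∑ x, BST_fac f γ g b x * w x ≤ (1 - 2 * γ ^ 2) * ∑ x, w x := by
  classical
  have hΦ : 0 < ∑ x, w x := Finset.sum_pos (fun x _ => hw x) Finset.univ_nonempty
  set Φ : ℝ := ∑ x, w x with hΦdef
  obtain ⟨g, hg, hadv⟩ := hD (fun x => w x / Φ) ⟨fun x => div_nonneg (hw x).le hΦ.le, by
    rw [← Finset.sum_div, ← hΦdef, div_self hΦ.ne']⟩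
  have hsplit : ∀ (q : (Fin n → Bool) → Prop) [DecidablePred q],
      ∑ x, (if q x then w x / Φ else 0) = 1 - ∑ x, (if q x then 0 else w x / Φ) := by
    intro q _
    rw [eq_sub_iff_add_eq, ← Finset.sum_add_distrib]
    have : ∀ x, ((if q x then w x / Φ else 0) + (if q x then 0 else w x / Φ)) = w x / Φ := by
      intro x
      split_ifs <;> ring
    rw [Finset.sum_congr rfl (fun x _ => this x), ← Finset.sum_div, ← hΦdef, div_self hΦ.ne']
  have hfac : ∀ b : Bool, 1 / 2 + γ ≤ ∑ x, (if (xor b (g x) = true ↔ f x) then w x / Φ else 0) →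
      ∑ x, BST_fac f γ g b x * w x ≤ (1 - 2 * γ ^ 2) * Φ := by
    intro b hb
    have e1 : ∀ x, BST_fac f γ g b x * w x = (1 + γ) * w x - 2 * γ * Φ * (if (xor b (g x) = true ↔ f x) then w x / Φ else 0) := by
      intro x
      unfold BST_fac
      split_ifs
      · field_simp
        ring
      · ring
    rw [Finset.sum_congr rfl (fun x _ => e1 x), Finset.sum_sub_distrib, ← Finset.mul_sum, ← Finset.mul_sum, ← hΦdef]
    have e2 : 2 * γ * Φ * (1 / 2 + γ) ≤ 2 * γ * Φ * ∑ x, (if (xor b (g x) = true ↔ f x) then w x / Φ else 0) :=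
      mul_le_mul_of_nonneg_left hb (by positivity)
    nlinarith
  unfold adv agr at hadv
  rcases le_abs.mp hadv with h1 | h1
  · refine ⟨g, false, hg, hfac false ?_⟩
    have e : ∑ x, (if (xor false (g x) = true ↔ f x) then w x / Φ else 0) = ∑ x, (if (g x = true ↔ f x) then w x / Φ else 0) := by
      refine Finset.sum_congr rfl fun x _ => ?_
      rw [Bool.false_xor]
    rw [e]
    linarith
  · refine ⟨g, true, hg, hfac true ?_⟩
    have e : ∑ x, (if (xor true (g x) = true ↔ f x) then w x / Φ else 0) = ∑ x, (if (g x = true ↔ f x) then 0 else w x / Φ) := by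
      refine Finset.sum_congr rfl fun x _ => ?_
      have hiff : (xor true (g x) = true ↔ f x) ↔ ¬ (g x = true ↔ f x) := by
        cases g x <;> by_cases hf : f x <;> simp [hf]
      by_cases hq : (g x = true ↔ f x)
      · rw [if_neg (fun h => (hiff.mp h) hq), if_pos hq]
      · rw [if_pos (hiff.mpr hq), if_neg hq]
    rw [e]
    have := hsplit (fun x => (g x = true ↔ f x))
    linarith

theorem BST_build {n : ℕ} (f : (Fin n → Bool) → Prop) (P : Fn n → Prop) (γ : ℝ) (hγ : 0 < γ) (hγ2 : γ ≤ 1 / 2)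
    (hD : ∀ D : (Fin n → Bool) → ℝ, IsDist D → ∃ g, P g ∧ γ ≤ adv D f g) (T : ℕ) :
    ∃ (g : Fin T → Fn n) (b : Fin T → Bool), (∀ i, P (g i)) ∧
      ∑ x, ∏ i : Fin T, BST_fac f γ (g i) (b i) x ≤ 2 ^ n * (1 - 2 * γ ^ 2) ^ T := by
  classical
  have hpos : ∀ (g : Fn n) (b : Bool) (x : Fin n → Bool), 0 < BST_fac f γ g b x := by
    intro g b x
    unfold BST_fac
    split_ifs <;> linarith
  induction T with
  | zero =>
    refine ⟨Fin.elim0, Fin.elim0, fun i => i.elim0, ?_⟩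
    simp
  | succ T ih =>
    obtain ⟨g, b, h1, h2⟩ := ih
    obtain ⟨g0, b0, h3, h4⟩ := BST_step f P γ hγ hD (fun x => ∏ i : Fin T, BST_fac f γ (g i) (b i) x)
      (fun x => Finset.prod_pos fun i _ => hpos _ _ _)
    refine ⟨Fin.cons g0 g, Fin.cons b0 b, ?_, ?_⟩
    · intro i
      refine Fin.cases ?_ (fun j => ?_) i
      · exact h3
      · exact h1 j
    · have e : ∀ x, ∏ i : Fin (T + 1), BST_fac f γ ((Fin.cons g0 g : Fin (T + 1) → Fn n) i) ((Fin.cons b0 b : Fin (T + 1) → Bool) i) x =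
          BST_fac f γ g0 b0 x * ∏ i : Fin T, BST_fac f γ (g i) (b i) x := by
        intro x
        rw [Fin.prod_univ_succ]
        rfl
      rw [Finset.sum_congr rfl (fun x _ => e x)]
      refine h4.trans ?_
      have h5 : 0 ≤ 1 - 2 * γ ^ 2 := by nlinarith
      calc (1 - 2 * γ ^ 2) * ∑ x, ∏ i : Fin T, BST_fac f γ (g i) (b i) x ≤ (1 - 2 * γ ^ 2) * (2 ^ n * (1 - 2 * γ ^ 2) ^ T) :=
            mul_le_mul_of_nonneg_left h2 h5
        _ = 2 ^ n * (1 - 2 * γ ^ 2) ^ (T + 1) := by ring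

theorem BST_num (γ : ℝ) (c T : ℕ) (h0 : 0 < γ) (h1 : γ ≤ 1 / 2) (hc : 2 * c ≤ T) :
    (1 - γ ^ 2) ^ T ≤ ((1 - γ) ^ c * (1 + γ) ^ (T - c)) ^ 2 := by
  obtain ⟨m, rfl⟩ : ∃ m, T = 2 * c + m := ⟨T - 2 * c, by omega⟩
  have e1 : 2 * c + m - c = c + m := by omega
  have e2 : ((1 - γ) ^ c * (1 + γ) ^ (c + m)) ^ 2 = (1 - γ ^ 2) ^ (2 * c) * ((1 + γ) ^ m) ^ 2 := by
    have : 1 - γ ^ 2 = (1 - γ) * (1 + γ) := by ring
    rw [this, mul_pow, mul_pow]
    ring
  rw [e1, e2, pow_add]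
  have h2 : 0 ≤ 1 - γ ^ 2 := by nlinarith
  apply mul_le_mul_of_nonneg_left _ (pow_nonneg h2 _)
  have e3 : (1 - γ ^ 2) ^ m ≤ 1 := pow_le_one₀ h2 (by nlinarith)
  have e4 : 1 ≤ ((1 + γ) ^ m) ^ 2 := one_le_pow₀ (one_le_pow₀ (by linarith))
  linarith

theorem BST : BST_stmt := by
  classical
  intro n f P γ hγ hγ2 hD T hT
  obtain ⟨g, b, h1, h2⟩ := BST_build f P γ hγ hγ2 hD T
  refine ⟨g, b, h1, fun x => ?_⟩
  refine ⟨Finset.univ.filter (fun i => (xor (b i) (g i x) = true ↔ f x)), ?_, fun i hi => (Finset.mem_filter.mp hi).2⟩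
  by_contra hc
  set S := Finset.univ.filter (fun i : Fin T => (xor (b i) (g i x) = true ↔ f x)) with hS
  have hc' : 2 * S.card ≤ T := by omega
  have hW : ∏ i : Fin T, BST_fac f γ (g i) (b i) x = (1 - γ) ^ S.card * (1 + γ) ^ (T - S.card) := by
    have e : ∀ i : Fin T, BST_fac f γ (g i) (b i) x = if (xor (b i) (g i x) = true ↔ f x) then 1 - γ else 1 + γ := by
      intro i
      unfold BST_fac
      rfl
    rw [Finset.prod_congr rfl (fun i _ => e i), Finset.prod_ite, Finset.prod_const, Finset.prod_const]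
    congr 2
    have := Finset.card_filter_add_card_filter_not (s := (Finset.univ : Finset (Fin T))) (fun i : Fin T => (xor (b i) (g i x) = true ↔ f x))
    rw [Finset.card_univ, Fintype.card_fin, ← hS] at this
    omega
  have hpos : ∀ (g : Fn n) (b : Bool) (x : Fin n → Bool), 0 < BST_fac f γ g b x := by
    intro g b x
    unfold BST_fac
    split_ifs <;> linarith
  have hWle : ∏ i : Fin T, BST_fac f γ (g i) (b i) x ≤ ∑ x, ∏ i : Fin T, BST_fac f γ (g i) (b i) x :=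
    Finset.single_le_sum (f := fun x => ∏ i : Fin T, BST_fac f γ (g i) (b i) x)
      (fun y _ => Finset.prod_nonneg fun i _ => (hpos _ _ _).le) (Finset.mem_univ x)
  set a : ℝ := γ ^ 2 with ha
  have ha0 : 0 < a := by positivity
  have ha1 : a ≤ 1 / 4 := by nlinarith
  have h3 : (1 - γ) ^ S.card * (1 + γ) ^ (T - S.card) < ((1 + a) * (1 - 2 * a)) ^ T := by
    rw [← hW]
    refine (hWle.trans h2).trans_lt ?_
    rw [mul_pow]
    exact mul_lt_mul_of_pos_right hT (pow_pos (by linarith) T)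
  have hW0 : 0 ≤ (1 - γ) ^ S.card * (1 + γ) ^ (T - S.card) :=
    mul_nonneg (pow_nonneg (by linarith) _) (pow_nonneg (by linarith) _)
  have h4 : ((1 - γ) ^ S.card * (1 + γ) ^ (T - S.card)) ^ 2 < (((1 + a) * (1 - 2 * a)) ^ 2) ^ T := by
    have : (((1 + a) * (1 - 2 * a)) ^ 2) ^ T = (((1 + a) * (1 - 2 * a)) ^ T) ^ 2 := by
      rw [← pow_mul, ← pow_mul, Nat.mul_comm]
    rw [this]
    exact pow_lt_pow_left₀ h3 hW0 (by norm_num)
  have h5 : ((1 + a) * (1 - 2 * a)) ^ 2 ≤ 1 - a := by nlinarith [mul_pos ha0 ha0, mul_nonneg ha0.le (by linarith : 0 ≤ 1 - 4 * a)]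
  have h6 : (((1 + a) * (1 - 2 * a)) ^ 2) ^ T ≤ (1 - a) ^ T := pow_le_pow_left₀ (sq_nonneg _) h5 T
  have h7 : (1 - a) ^ T ≤ ((1 - γ) ^ S.card * (1 + γ) ^ (T - S.card)) ^ 2 := by
    exact BST_num γ S.card T hγ hγ2 hc'
  linarith

end Pool.Agent.ADV
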